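import Pool.Agent.H.MP_559b1d_an.D

open Filter Topology MeasureTheory Complex Set Pool.Agent.H.MP_559b1d_an
open scoped Real InnerProductSpace

namespace Pool.Agent.Results.MP_559b1d_an.No

/-- piecewise continuous on `Γ`: bounded, with both one-sided limits at every point -/
def PC (g : ℂ → ℂ) : Prop :=
  (∃ M, ∀ p : Fin 4 × ℝ, p.2 ∈ Icc (-1) 1 → ‖g (γ p)‖ ≤ M) ∧
  (∀ k, ∀ s ∈ Ico (-1 : ℝ) 1, ∃ l, Tendsto (fun r => g (γ (k, r))) (𝓝[>] s) (𝓝 l)) ∧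
  ∀ k, ∀ s ∈ Ioc (-1 : ℝ) 1, ∃ l, Tendsto (fun r => g (γ (k, r))) (𝓝[<] s) (𝓝 l)

variable {E : Type} [NormedAddCommGroup E] [InnerProductSpace ℂ E] [CompleteSpace E]

/-- `Re B = D + T` with `D` positive (semi-definite is allowed) and `T` compact -/
def StronglyElliptic (B : E →L[ℂ] E) : Prop :=
  ∃ D T : E →L[ℂ] E, (∀ f, 0 ≤ (⟪f, D f⟫_ℂ).re) ∧ IsCompactOperator T ∧
    (1 / 2 : ℂ) • (B + ContinuousLinearMap.adjoint B) = D + T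

/-! Below `E` is `L²(μ)` and `v f` is the function that represents `f : E`. -/

/-- `S` is given by the principal value Cauchy integral on functions analytic near `Γ` -/
def IsCauchy (v : E → Fin 4 × ℝ → ℂ) (S : E →L[ℂ] E) : Prop :=
  ∀ (F : ℂ → ℂ) (f : E), (∀ p : Fin 4 × ℝ, p.2 ∈ Icc (-1) 1 → AnalyticAt ℂ F (γ p)) →
    (v f =ᵐ[μ] fun p => F (γ p)) → ∀ᵐ t ∂μ, Tendsto (fun δ : ℝ => (π * I)⁻¹ *
      ∫ p in {p | δ < ‖γ p - γ t‖}, F (γ p) / (γ p - γ t) * τ p ∂μ) (𝓝[>] 0) (𝓝 (v (S f) t))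

/-- `θ A` is strongly elliptic for some `θ ∈ PC(Γ)` bounded away from zero -/
def ThetaElliptic (v : E → Fin 4 × ℝ → ℂ) (A : E →L[ℂ] E) : Prop :=
  ∃ θ : ℂ → ℂ, PC θ ∧ (∃ m > 0, ∀ p : Fin 4 × ℝ, p.2 ∈ Icc (-1) 1 → m ≤ ‖θ (γ p)‖) ∧
    ∃ B : E →L[ℂ] E, (∀ f, v (B f) =ᵐ[μ] fun p => θ (γ p) * v (A f) p) ∧ StronglyElliptic B

/-- neither `aI + bS` nor `aI + S bI` is `θ`-strongly elliptic, `S` the Cauchy operator -/
def Neither (v : E → Fin 4 × ℝ → ℂ) (a b : ℂ) : Prop :=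
  ∀ S, IsCauchy v S →
    ¬ThetaElliptic v (a • 1 + b • S) ∧ ¬ThetaElliptic v (a • 1 + S ∘L (b • 1))

theorem result : ∃ a b : ℂ,
    (∀ x ∈ Icc (0 : ℝ) 1, ∀ y ∈ Icc (0 : ℝ) 1, ((a + b) * (a - b) * x +
      (a + b) * (a - b) * (1 - x)) * y + (a - b) * (a - b) * (1 - y) ≠ 0) ∧
    Neither (fun (f : Lp ℂ 2 μ) p => f p) a b := by
  set β : ℝ := 1 - 1 / (200 * 12 ^ 2) with hβ
  refine ⟨1, β, fun x _ y hy => ?_, fun S hS => ?_⟩
  · have : 0 < ((1 + β) * (1 - β) * x + (1 + β) * (1 - β) * (1 - x)) * y +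
        (1 - β) * (1 - β) * (1 - y) := by
      rw [hβ]; nlinarith [hy.1, hy.2]
    exact_mod_cast this.ne'
  rw [show S ∘L ((β : ℂ) • 1) = (β : ℂ) • S by
    rw [ContinuousLinearMap.comp_smul, ← ContinuousLinearMap.mul_def, mul_one], and_self]
  rintro ⟨θ, ⟨⟨M, hM⟩, hr, hl⟩, ⟨m, hm, hm'⟩, B, hB, D, T, hD, hT, e⟩
  obtain ⟨θ₀, h0⟩ := hl 0 1 (by norm_num)
  obtain ⟨θ₁, h1⟩ := hr 1 (-1) (by norm_num)
  have key : ∀ {z s : ℂ}, P z → (∀ {ε : ℝ}, ε ∈ Ioo (0 : ℝ) 1 →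
      1 - (π * I)⁻¹ * ∫ p, τ p / (γ p - (1 + I - ε * z)) ∂μ = s) → ∀ ε ∈ Ioo (0 : ℝ) 1,
      B (F z ε) =ᵐ[μ] fun p => θ (γ p) * ((1 + β * s) * R z ε p) := by
    intro z s hz hs ε hε
    have := hS (fun w => √ε * (w - (1 + I - ε * z))⁻¹) (F z ε) (fun p _ =>
      analyticAt_const.mul ((analyticAt_id.sub analyticAt_const).inv
        (norm_pos_iff.1 (hε.1.trans_le (hz.dist hε.1 hε.2 p))))) (F_ae hz hε)
    filter_upwards [this, ae_mem, hB (F z ε), F_ae hz hε, Lp.coeFn_add (F z ε) ((β : ℂ) • S (F z ε)),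
      Lp.coeFn_smul (β : ℂ) (S (F z ε))] with p e1 e2 e3 e4 e5 e6
    have := tendsto_nhds_unique e1 (pv_R hε.1 (fun p _ => hz.dist hε.1 hε.2 p) _ e2)
    rw [hs hε] at this
    rw [e3, one_smul, add_apply, one_apply_eq_self, smul_apply, e5, Pi.add_apply, e6, e4,
      Pi.smul_apply, this, smul_eq_mul, R]
    ring
  have hb : (1 + β * 1 : ℂ) ≠ 0 := by
    have : (1 + β * 1 : ℝ) ≠ 0 := by rw [hβ]; norm_num
    exact_mod_cast this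
  have hθ : AEStronglyMeasurable (fun p => θ (γ p)) μ := by
    have h : (1 / 2 : ℝ) ∈ Ioo (0 : ℝ) 1 := by norm_num
    refine (((Lp.aestronglyMeasurable (B (F (1 - I) (1 / 2)))).aemeasurable.div
      ((R_meas (1 - I) (1 / 2)).const_mul (1 + β * 1)).aemeasurable).congr ?_).aestronglyMeasurable
    filter_upwards [key P2 (W_out (.inl rfl)) _ h] with p e1
    rw [Pi.div_apply, e1]
    exact mul_div_cancel_right₀ _ (mul_ne_zero hb (mul_ne_zero (by simp) (inv_ne_zero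
      (norm_pos_iff.1 (h.1.trans_le (P2.dist h.1 h.2 p))))))
  have hpos : 0 < max ‖θ₀‖ ‖θ₁‖ := lt_max_of_lt_left (hm.trans_le (ge_of_tendsto h0.norm (by
    filter_upwards [Ioo_mem_nhdsLT (show (-1 : ℝ) < 1 by norm_num)] with r hr using
      hm' (0, r) (Ioo_subset_Icc_self hr))))
  have fin : ∀ z, P z → z = 1 - I ∨ z = -1 + I →
      ¬max ‖θ₀‖ ‖θ₁‖ / 4 ≤ ‖L θ₀ θ₁ z (1 + I)‖ := fun z hz hz' h => by
    obtain ⟨η, hη⟩ := fin_alg (by norm_num) hpos (L_le θ₀ θ₁ P1 P1) (L_le θ₀ θ₁ P1 hz)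
      (L_le θ₀ θ₁ hz hz) h
    have := core hθ (fun p hp => hM p (Ioo_subset_Icc_self hp)) h0 h1 P1 hz (key P1 W_in)
      (key hz (W_out hz')) hD hT e η
    rw [mul_neg_one, mul_one, ← sub_eq_add_neg] at this
    exact absurd hη (not_lt.2 this)
  exact (L_ge θ₀ θ₁).elim (fin _ P2 (.inl rfl)) (fin _ P3 (.inr rfl))

end Pool.Agent.Results.MP_559b1d_an.No
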